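import Mathlib
import Pool.Agent.W102.TD.Defs

/-! Project TD (helper102), part COUNT from CARRY. -/

set_option autoImplicit false

namespace Pool.Agent.W287.TD

open Finset
open Pool.Agent.W102.TD

lemma wt_compl (m j : ℕ) (hj : j < 2 ^ m) : wt m (2 ^ m - 1 - j) + wt m j = m := by
  unfold wt
  have h1 : (Finset.range m).filter (fun k => (2 ^ m - 1 - j).testBit k = true) =
      (Finset.range m).filter (fun k => ¬ (j.testBit k = true)) := by
    apply Finset.filter_congr
    intro k hk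
    rw [show 2 ^ m - 1 - j = 2 ^ m - (j + 1) by omega, Nat.testBit_two_pow_sub_succ hj]
    simp [Finset.mem_range.1 hk]
  rw [h1, add_comm, Finset.card_filter_add_card_filter_not, Finset.card_range]

lemma side (h : CARRY) (m t : ℕ) (e : Bool) (hm : 1 ≤ m) (ht : t < 2 ^ m) (A : Finset (ℕ × ℕ))
    (hA : ∀ p ∈ A, p.1 < 2 ^ m - 1 ∧ p.2 < 2 ^ m - 1 ∧ wt m p.1 + wt m p.2 ≤ m - 1 ∧
      t + (2 ^ m - 1 - p.2) + e.toNat = p.1 + 2 ^ m * e.toNat) :
    A.card ≤ ∑ d ∈ Finset.Icc (-(m : ℤ)) (-1), cnt (bits m t) e e d := by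
  have hpow : 0 < 2 ^ m := by positivity
  rw [Finset.sum_congr rfl (fun d _ => (h m t e e d ht).symm)]
  refine le_trans ?_ Finset.card_biUnion_le
  apply Finset.card_le_card_of_injOn (fun p : ℕ × ℕ => 2 ^ m - 1 - p.2)
  · intro p hp
    obtain ⟨h1, h2, h3, h4⟩ := hA p hp
    have hw := wt_compl m p.2 (by omega)
    rw [Finset.mem_coe, Finset.mem_biUnion]
    refine ⟨(wt m p.1 : ℤ) - (wt m (2 ^ m - 1 - p.2) : ℤ), ?_, ?_⟩
    · rw [Finset.mem_Icc]
      omega
    · rw [Finset.mem_filter, Finset.mem_range]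
      refine ⟨by show 2 ^ m - 1 - p.2 < 2 ^ m; omega, p.1, by omega, h4, ?_⟩
      ring
  · intro p hp p' hp' hpp
    obtain ⟨_, h2, _, h4⟩ := hA p hp
    obtain ⟨_, h2', _, h4'⟩ := hA p' hp'
    simp only at hpp
    have h5 : p.2 = p'.2 := by omega
    rw [h5] at h4
    have h6 : p.1 = p'.1 := by omega
    exact Prod.ext h6 h5

theorem COUNT (h : CARRY) : Pool.Agent.W102.TD.COUNT := by
  intro m t ht0 ht
  have hpow : 0 < 2 ^ m := by positivity
  have hm : 1 ≤ m := by
    rcases m with _ | m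
    · simp at ht
    · omega
  rw [Finset.sum_add_distrib]
  set S := (Finset.range (2 ^ m - 1) ×ˢ Finset.range (2 ^ m - 1)).filter
    (fun p : ℕ × ℕ => (p.1 + p.2) % (2 ^ m - 1) = t ∧ wt m p.1 + wt m p.2 ≤ m - 1) with hS
  have hSA : S ⊆ S.filter (fun p => p.1 + p.2 = t + (2 ^ m - 1)) ∪
      S.filter (fun p => p.1 + p.2 = t) := by
    intro p hp
    rw [Finset.mem_union]
    have hp' := hp
    rw [hS, Finset.mem_filter, Finset.mem_product, Finset.mem_range, Finset.mem_range] at hp'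
    obtain ⟨⟨h1, h2⟩, h3, _⟩ := hp'
    by_cases h4 : p.1 + p.2 < 2 ^ m - 1
    · right
      rw [Nat.mod_eq_of_lt h4] at h3
      exact Finset.mem_filter.2 ⟨hp, h3⟩
    · left
      rw [Nat.mod_eq_sub_mod (by omega), Nat.mod_eq_of_lt (by omega)] at h3
      exact Finset.mem_filter.2 ⟨hp, by omega⟩
  refine (Finset.card_le_card hSA).trans ((Finset.card_union_le _ _).trans ?_)
  apply Nat.add_le_add
  · apply side h m t false hm (by omega)
    intro p hp
    rw [Finset.mem_filter, hS, Finset.mem_filter, Finset.mem_product, Finset.mem_range,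
      Finset.mem_range] at hp
    obtain ⟨⟨⟨h1, h2⟩, _, h3⟩, h4⟩ := hp
    refine ⟨h1, h2, h3, ?_⟩
    simp only [Bool.toNat_false, mul_zero, add_zero]
    omega
  · apply side h m t true hm (by omega)
    intro p hp
    rw [Finset.mem_filter, hS, Finset.mem_filter, Finset.mem_product, Finset.mem_range,
      Finset.mem_range] at hp
    obtain ⟨⟨⟨h1, h2⟩, _, h3⟩, h4⟩ := hp
    refine ⟨h1, h2, h3, ?_⟩
    simp only [Bool.toNat_true, mul_one]
    omega

end Pool.Agent.W287.TD
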